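import Mathlib
import Pool.Agent.Helper68.PT.Ext2
import Pool.Agent.Helper81.VCP.Defs

/-!
# The algorithm: trace covers added to the search of project VCP (MP_bca398_lc)
-/

set_option autoImplicit false

namespace Pool.Agent.Helper33.TCM

open Pool.Agent.Helper36 Pool.Agent.Helper81.VCP

/-- The set `((⋃_{p ∈ w} p.2) ∩ V_i) ∪ e ∪ (W_{i+1} - ⋃_{p ∈ w'} p.2)` with `e ⊆ {i}`, as a vector of
length `n`. -/
def Yof (n i : ℕ) (e : Bool) (w w' : List (ℕ × List Bool)) : List Bool :=
  (List.range n).map fun j =>
    (decide (j < i) && w.any fun p => mem p.2 j) ||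
      ((decide (j = i) && e) || (decide (i < j) && !(w'.any fun p => mem p.2 j)))

/-- The candidates. -/
def allY (W W' : List (List (ℕ × List Bool))) (n : ℕ) : List (List Bool) :=
  ((List.range n).map fun _ => true) ::
    (List.range n).flatMap fun i => [false, true].flatMap fun e =>
      W.flatMap fun w => W'.map fun w' => Yof n i e w w'

/-- The search for a new minimal transversal. -/
def nextY (W W' : List (List (ℕ × List Bool))) (n : ℕ) (E L : List (List Bool)) :
    Option (List Bool) :=
  ((allY W W' n).find? (good n E L)).map (minim n E)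

/-- `2 c / 2 ^ q`. -/
def halve (c q : ℕ) : ℕ := PT.recN (2 * c) (fun _ x => x / 2) q

/-- All members of `E` have less than `2 ^ q / 2` elements. -/
def small (q : ℕ) (E : List (List Bool)) : Bool :=
  E.all fun A => decide (halve (A.filter id).length q = 0)

/-- The search with at most `q` members of `L` and at most `q` members of `E` is complete and no list
is truncated. -/
def feasY (P n : ℕ) (E L : List (List Bool)) (q : ℕ) : Bool :=
  (decide ((prs P n L q).length ≤ P) && decide ((prs P n E q).length ≤ P)) &&
    (small q E && small q L)

/-- One round: if the search for a new minimal transversal by trace covers is feasible for some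
`q < P` it is made; else one round of the loop of project VCP. -/
def stepT (s : State) : State :=
  match (List.range s.2.2.1).find? (feasY s.2.2.1 s.1.1 s.1.2 s.2.1) with
  | some q =>
    match nextY (prs s.2.2.1 s.1.1 s.2.1 q) (prs s.2.2.1 s.1.1 s.1.2 q) s.1.1 s.1.2 s.2.1 with
    | some v => (s.1, (s.2.1 ++ [v], (s.2.2.1, false)))
    | none => (s.1, (s.2.1, (s.2.2.1, true)))
  | none => stepS s

end Pool.Agent.Helper33.TCM
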