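import Mathlib
import Pool.Agent.Helper68.PT.Ext2
import Pool.Agent.Helper81.VCP.Defs
import Pool.Agent.Helper81.VCP.PT1a
import Pool.Agent.Helper81.VCP.PT1b
import Pool.Agent.Helper81.VCP.PT2a
import Pool.Agent.Helper81.VCP.PT2b
import Pool.Agent.Helper81.VCP.PT3
import Pool.Agent.Helper33.TCM.Defs

/-!
# Polynomial time of one round
-/

set_option autoImplicit false

namespace Pool.Agent.Helper33.TCM

open Pool.Agent.Helper36 Pool.Agent.Helper36.PT Pool.Agent.Helper81.VCP

variable {α : Type} [Enc α]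

@[fun_prop]
theorem Yof_pt {n i : α → ℕ} {e : α → Bool} {w w' : α → List (ℕ × List Bool)}
    (hn : PolyTime n) (hi : PolyTime i) (he : PolyTime e) (hw : PolyTime w) (hw' : PolyTime w') :
    PolyTime (fun a => Yof (n a) (i a) (e a) (w a) (w' a)) := by
  unfold Yof
  fun_prop

@[fun_prop]
theorem allY_pt {W W' : α → List (List (ℕ × List Bool))} {n : α → ℕ}
    (hW : PolyTime W) (hW' : PolyTime W') (hn : PolyTime n) :
    PolyTime (fun a => allY (W a) (W' a) (n a)) := by
  unfold allY
  fun_prop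

@[fun_prop]
theorem nextY_pt {W W' : α → List (List (ℕ × List Bool))} {n : α → ℕ} {E L : α → List (List Bool)}
    (hW : PolyTime W) (hW' : PolyTime W') (hn : PolyTime n) (hE : PolyTime E) (hL : PolyTime L) :
    PolyTime (fun a => nextY (W a) (W' a) (n a) (E a) (L a)) := by
  unfold nextY
  fun_prop

theorem halve_eq (c q : ℕ) : halve c q = 2 * c / 2 ^ q := by
  induction q with
  | zero => simp [halve, PT.recN]
  | succ q ih =>
    have : halve c (q + 1) = halve c q / 2 := rfl
    rw [this, ih, Nat.div_div_eq_div_mul, pow_succ]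

@[fun_prop]
theorem halve_pt {c q : α → ℕ} (hc : PolyTime c) (hq : PolyTime q) :
    PolyTime (fun a => halve (c a) (q a)) := by
  have hh : PolyTime (fun p : (α × ℕ) × ℕ => p.2 / 2) := by fun_prop
  have h := PolyTime.recN (n := q) (g := fun a : α => 2 * c a)
    (h := fun _ _ x => x / 2) hq (by fun_prop) hh
    ⟨fun a => 2 * c a, (Bdd.const 2).mul (bdd_nat hc), by
        intro a i _
        rw [esz_nat]
        change halve (c a) i ≤ 2 * c a
        rw [halve_eq]
        exact Nat.div_le_self _ _⟩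
  exact h

@[fun_prop]
theorem small_pt {q : α → ℕ} {E : α → List (List Bool)} (hq : PolyTime q) (hE : PolyTime E) :
    PolyTime (fun a => small (q a) (E a)) := by
  unfold small
  fun_prop

@[fun_prop]
theorem feasY_pt {P n : α → ℕ} {E L : α → List (List Bool)} {q : α → ℕ} (hP : PolyTime P)
    (hn : PolyTime n) (hE : PolyTime E) (hL : PolyTime L) (hq : PolyTime q) :
    PolyTime (fun a => feasY (P a) (n a) (E a) (L a) (q a)) := by
  unfold feasY
  fun_prop

private def stepM (s : State) (q : ℕ) : State :=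
  match nextY (prs s.2.2.1 s.1.1 s.2.1 q) (prs s.2.2.1 s.1.1 s.1.2 q) s.1.1 s.1.2 s.2.1 with
  | none => (s.1, (s.2.1, (s.2.2.1, true)))
  | some v => (s.1, (s.2.1 ++ [v], (s.2.2.1, false)))

private theorem stepM_pt : PolyTime (fun p : State × ℕ => stepM p.1 p.2) := by
  have h := PolyTime.optCases (o := fun p : State × ℕ =>
      nextY (prs p.1.2.2.1 p.1.1.1 p.1.2.1 p.2) (prs p.1.2.2.1 p.1.1.1 p.1.1.2 p.2) p.1.1.1
        p.1.1.2 p.1.2.1)
    (f := fun p : State × ℕ => ((p.1.1, (p.1.2.1, (p.1.2.2.1, true))) : State))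
    (g := fun (p : State × ℕ) v => ((p.1.1, (p.1.2.1 ++ [v], (p.1.2.2.1, false))) : State))
    (by fun_prop) (by fun_prop) (by fun_prop)
  refine h.congr fun p => ?_
  unfold stepM
  generalize nextY (prs p.1.2.2.1 p.1.1.1 p.1.2.1 p.2) (prs p.1.2.2.1 p.1.1.1 p.1.1.2 p.2) p.1.1.1
        p.1.1.2 p.1.2.1 = o
  cases o with
  | none => rfl
  | some v => rfl

theorem stepT_pt : PolyTime stepT := by
  have h := PolyTime.optCases (o := fun s : State =>
      (List.range s.2.2.1).find? (feasY s.2.2.1 s.1.1 s.1.2 s.2.1))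
    (f := stepS)
    (g := fun (s : State) (q : ℕ) => stepM s q)
    (by fun_prop) stepS_pt stepM_pt
  refine h.congr fun s => ?_
  unfold stepT stepM
  generalize (List.range s.2.2.1).find? (feasY s.2.2.1 s.1.1 s.1.2 s.2.1) = o
  cases o with
  | none => rfl
  | some q =>
    simp only
    generalize nextY (prs s.2.2.1 s.1.1 s.2.1 q) (prs s.2.2.1 s.1.1 s.1.2 q) s.1.1 s.1.2 s.2.1
      = o''
    cases o'' with
    | none => rfl
    | some v => rfl

end Pool.Agent.Helper33.TCM
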