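import Mathlib
import Pool.Agent.Helper81.VCP.Defs
import Pool.Agent.Helper81.VCP.K3
import Pool.Agent.Helper81.VCP.K4
import Pool.Agent.Helper81.VCP.K7
import Pool.Agent.Helper33.TC.Core
import Pool.Agent.Helper33.TCM.Defs
import Pool.Agent.Helper33.TCM.PT

/-!
# Correctness of the search by trace covers
-/

set_option autoImplicit false

namespace Pool.Agent.Helper33.TCM

open Pool.Agent.Helper81.VCP

variable {n : ℕ}

theorem length_Yof (i : ℕ) (e : Bool) (w w' : List (ℕ × List Bool)) :
    (Yof n i e w w').length = n := by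
  simp [Yof]

/-- The list of pairs of a family. -/
noncomputable def lst (S : Finset (Finset (Fin n))) : List (ℕ × List Bool) :=
  S.toList.map (fun B => (0, vec B))

theorem any_lst (S : Finset (Finset (Fin n))) (j : Fin n) :
    ((lst S).any fun p => mem p.2 j) = true ↔ j ∈ S.sup id := by
  unfold lst
  rw [List.any_eq_true]
  simp only [List.mem_map, Finset.mem_toList, Finset.mem_sup, id]
  constructor
  · rintro ⟨p, ⟨B, hB, rfl⟩, h⟩
    exact ⟨B, hB, (mem_vec_fin B j).1 h⟩
  · rintro ⟨B, hB, h⟩
    exact ⟨(0, vec B), ⟨B, hB, rfl⟩, (mem_vec_fin B j).2 h⟩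

theorem Yof_vec (i : Fin n) (e : Finset (Fin n)) (he : e ⊆ {i}) (S T : Finset (Finset (Fin n))) :
    Yof n i (decide (i ∈ e)) (lst S) (lst T) =
      vec ((S.sup id ∩ TC.VI n i) ∪ (e ∪ ((TC.VI n (i + 1))ᶜ \ T.sup id))) := by
  apply ext_mem_K3
  · rw [length_Yof, length_vec]
  · intro j hj
    rw [length_Yof] at hj
    obtain ⟨j, rfl⟩ : ∃ j' : Fin n, j = (j' : ℕ) := ⟨⟨j, hj⟩, rfl⟩
    rw [mem_vec_fin]
    have h1 : mem (Yof n i (decide (i ∈ e)) (lst S) (lst T)) (j : ℕ) =
        ((decide ((j : ℕ) < i) && (lst S).any fun p => mem p.2 j) ||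
          ((decide ((j : ℕ) = i) && decide (i ∈ e)) ||
            (decide ((i : ℕ) < j) && !((lst T).any fun p => mem p.2 j)))) := by
      unfold Yof
      rw [mem, List.getD_eq_getElem _ _ (by simpa using hj)]
      simp
    rw [h1, Bool.or_eq_true, Bool.or_eq_true, Bool.and_eq_true, Bool.and_eq_true, Bool.and_eq_true,
      Bool.not_eq_true', ← Bool.not_eq_true, any_lst, any_lst]
    simp only [decide_eq_true_eq, Finset.mem_union, Finset.mem_inter, Finset.mem_sdiff,
      Finset.mem_compl, TC.mem_VI]
    constructor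
    · rintro (⟨h2, h3⟩ | ⟨h2, h3⟩ | ⟨h2, h3⟩)
      · exact Or.inl ⟨h3, h2⟩
      · exact Or.inr (Or.inl (by rwa [Fin.ext h2]))
      · exact Or.inr (Or.inr ⟨by omega, h3⟩)
    · rintro (⟨h2, h3⟩ | h2 | ⟨h2, h3⟩)
      · exact Or.inl ⟨h3, h2⟩
      · have h4 : j = i := Finset.mem_singleton.1 (he h2)
        exact Or.inr (Or.inl ⟨by rw [h4], by rwa [← h4]⟩)
      · exact Or.inr (Or.inr ⟨by omega, h3⟩)

theorem length_of_mem_allY (W W' : List (List (ℕ × List Bool))) (Z : List Bool)
    (h : Z ∈ allY W W' n) : Z.length = n := by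
  unfold allY at h
  rcases List.mem_cons.1 h with rfl | h
  · simp
  · rw [List.mem_flatMap] at h
    obtain ⟨i, _, h⟩ := h
    rw [List.mem_flatMap] at h
    obtain ⟨e, _, h⟩ := h
    rw [List.mem_flatMap] at h
    obtain ⟨w, _, h⟩ := h
    rw [List.mem_map] at h
    obtain ⟨w', _, rfl⟩ := h
    exact length_Yof i e w w'

theorem nextY_some (W W' : List (List (ℕ × List Bool))) (E L : List (Finset (Fin n)))
    (v : List Bool) (h : nextY W W' n (E.map vec) (L.map vec) = some v) :
    ∃ T : Finset (Fin n), v = vec T ∧ MinTr E T ∧ ∀ B ∈ L, ¬ B ⊆ T := by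
  unfold nextY at h
  obtain ⟨Z, hfind, hv⟩ := Option.map_eq_some_iff.1 h
  have hgood := List.find?_some hfind
  obtain ⟨Z', rfl⟩ := vec_surj Z (length_of_mem_allY W W' Z (List.mem_of_find?_eq_some hfind))
  unfold good at hgood
  rw [Bool.and_eq_true] at hgood
  obtain ⟨T, h1, h2, h3⟩ := minim_spec E Z' ((hits_vec E Z').1 hgood.1)
  refine ⟨T, by rw [← hv, h1], h2, fun B hB hBT => ?_⟩
  exact (avoids_vec L Z').1 hgood.2 B hB (hBT.trans h3)

theorem card_vec (A : Finset (Fin n)) : ((vec A).filter id).length = A.card := by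
  unfold vec
  have h1 : List.ofFn (fun i : Fin n => decide (i ∈ A)) =
      (List.finRange n).map (fun i => decide (i ∈ A)) := by
    rw [List.ofFn_eq_map]
  rw [h1, List.filter_map, List.length_map]
  have h2 : (List.filter (id ∘ fun i : Fin n => decide (i ∈ A)) (List.finRange n)).toFinset = A := by
    ext x
    simp
  have h3 : (List.filter (id ∘ fun i : Fin n => decide (i ∈ A)) (List.finRange n)).Nodup :=
    (List.nodup_finRange n).filter _
  rw [← List.toFinset_card_of_nodup h3, h2]

theorem small_iff (q : ℕ) (E : List (Finset (Fin n))) :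
    small q (E.map vec) = true ↔ ∀ A ∈ E, 2 * A.card < 2 ^ q := by
  unfold small
  rw [List.all_eq_true]
  constructor
  · intro h A hA
    have := h (vec A) (List.mem_map.2 ⟨A, hA, rfl⟩)
    rw [decide_eq_true_eq, card_vec, halve_eq, Nat.div_eq_zero_iff] at this
    rcases this with h | h
    · exact absurd h (by positivity)
    · exact h
  · intro h v hv
    obtain ⟨A, hA, rfl⟩ := List.mem_map.1 hv
    rw [decide_eq_true_eq, card_vec, halve_eq, Nat.div_eq_zero_iff]
    exact Or.inr (h A hA)

theorem lst_mem_prs (P q : ℕ) (E : List (Finset (Fin n))) (S : Finset (Finset (Fin n)))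
    (hn : 0 < n) (hS : S ⊆ E.toFinset) (hc : S.card ≤ q)
    (h : (prs P n (E.map vec) q).length ≤ P) : lst S ∈ prs P n (E.map vec) q := by
  rw [mem_prs P n (E.map vec) q h]
  unfold lst
  refine ⟨by rw [List.length_map, Finset.length_toList]; exact hc, ?_⟩
  intro p hp
  rw [List.mem_map] at hp
  obtain ⟨B, hB, rfl⟩ := hp
  rw [Finset.mem_toList] at hB
  exact ⟨hn, List.mem_map.2 ⟨B, List.mem_toFinset.1 (hS hB), rfl⟩⟩

theorem nextY_none (P q : ℕ) (E L : List (Finset (Fin n))) (hL : ∀ B ∈ L, MinTr E B)
    (hf : feasY P n (E.map vec) (L.map vec) q = true)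
    (h : nextY (prs P n (L.map vec) q) (prs P n (E.map vec) q) n (E.map vec) (L.map vec) = none) :
    ∀ T : Finset (Fin n), MinTr E T → T ∈ L := by
  classical
  unfold feasY at hf
  rw [Bool.and_eq_true, Bool.and_eq_true, Bool.and_eq_true, decide_eq_true_eq, decide_eq_true_eq,
    small_iff, small_iff] at hf
  obtain ⟨⟨hf1, hf2⟩, hf3, hf4⟩ := hf
  unfold nextY at h
  rw [Option.map_eq_none_iff, List.find?_eq_none] at h
  have hgd : ∀ Z : Finset (Fin n), vec Z ∈ allY (prs P n (L.map vec) q) (prs P n (E.map vec) q) n →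
      ¬ TC.Wit L.toFinset E.toFinset Z := by
    intro Z hZ hW
    apply h _ hZ
    unfold good
    rw [Bool.and_eq_true, hits_vec, avoids_vec]
    exact ⟨fun A hA => hW.1 A (List.mem_toFinset.2 hA),
      fun B hB => hW.2 B (List.mem_toFinset.2 hB)⟩
  intro T hT
  by_contra hTL
  have hWT : TC.Wit L.toFinset E.toFinset T := by
    constructor
    · intro A hA
      rw [Finset.inter_comm]
      exact hT.prop A (List.mem_toFinset.1 hA)
    · intro B hB hBT
      have hB' := List.mem_toFinset.1 hB
      have h1 : T ⊆ B := hT.le_of_le (hL B hB').prop hBT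
      rw [Finset.Subset.antisymm h1 hBT] at hTL
      exact hTL hB'
  rcases E.toFinset.eq_empty_or_nonempty with hE | hE
  · apply hgd Finset.univ
    · unfold allY
      rw [List.mem_cons]
      left
      apply ext_mem_K3
      · rw [length_vec]; simp
      · intro j hj
        rw [length_vec] at hj
        constructor
        · intro _
          rw [mem, List.getD_eq_getElem _ _ (by simpa using hj)]
          simp
        · intro _
          rw [mem_vec]
          exact ⟨hj, Finset.mem_univ _⟩
    · constructor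
      · intro B hB
        rw [hE] at hB
        exact absurd hB (Finset.notMem_empty _)
      · intro B hB
        have hB' := List.mem_toFinset.1 hB
        have hEe : E = [] := by
          rcases E with _ | ⟨x, E⟩
          · rfl
          · exfalso
            have : x ∈ (x :: E).toFinset := by simp
            rw [hE] at this
            exact absurd this (Finset.notMem_empty _)
        exfalso
        apply hWT.2 B hB
        subst hEe
        have : B ⊆ ∅ := (hL B hB').le_of_le (y := (∅ : Finset (Fin n))) (fun e he => by simp at he)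
          (Finset.empty_subset B)
        exact this.trans (Finset.empty_subset T)
  · obtain ⟨i, e, he, S, hS, hSc, S', hS', hSc', hW⟩ := TC.trace_cover L.toFinset E.toFinset
      (fun A hA B hB => (hL A (List.mem_toFinset.1 hA)).prop B (List.mem_toFinset.1 hB)) hE q q
      (fun A hA => (hf4 A (List.mem_toFinset.1 hA)).le) (fun B hB => hf3 B (List.mem_toFinset.1 hB))
      T hWT
    have hn : 0 < n := i.pos
    apply hgd _ _ hW
    rw [← Yof_vec i e he S S']
    unfold allY
    rw [List.mem_cons]
    right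
    rw [List.mem_flatMap]
    refine ⟨i, List.mem_range.2 i.2, ?_⟩
    rw [List.mem_flatMap]
    refine ⟨decide (i ∈ e), ?_, ?_⟩
    · cases decide (i ∈ e) <;> simp
    · rw [List.mem_flatMap]
      refine ⟨lst S, lst_mem_prs P q L S hn hS hSc hf1, ?_⟩
      rw [List.mem_map]
      exact ⟨lst S', lst_mem_prs P q E S' hn hS' hSc' hf2, rfl⟩

theorem feasY_of_card (P v : ℕ) (E L : List (Finset (Fin n))) (hE : ∀ A ∈ E, A.card < 2 ^ (v + 1))
    (hL : ∀ A ∈ L, A.card < 2 ^ (v + 1)) (h1 : (n * L.length + 1) ^ (v + 2) ≤ P)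
    (h2 : (n * E.length + 1) ^ (v + 2) ≤ P) :
    feasY P n (E.map vec) (L.map vec) (v + 2) = true := by
  unfold feasY
  rw [Bool.and_eq_true, Bool.and_eq_true, Bool.and_eq_true, decide_eq_true_eq, decide_eq_true_eq,
    small_iff, small_iff]
  refine ⟨⟨?_, ?_⟩, fun A hA => ?_, fun A hA => ?_⟩
  · refine (length_prs_le P n (L.map vec) (v + 2)).trans ?_
    rwa [List.length_map]
  · refine (length_prs_le P n (E.map vec) (v + 2)).trans ?_
    rwa [List.length_map]
  · have := hE A hA
    rw [pow_succ]
    omega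
  · have := hL A hA
    rw [pow_succ]
    omega

end Pool.Agent.Helper33.TCM
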