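import Mathlib
import Pool.Agent.Helper68.PT.Ext2
import Pool.Agent.Helper81.VCP.Defs
import Pool.Agent.Helper81.VCP.K3
import Pool.Agent.Helper81.VCP.F1
import Pool.Agent.Helper81.VCP.F2
import Pool.Agent.Helper33.TCM.Defs
import Pool.Agent.Helper33.TCM.Search

/-!
# One round and the run of the main loop

The run is the one of `VCP.F2` (proof by helper96), for an arbitrary step function.
-/

set_option autoImplicit false

namespace Pool.Agent.Helper33.TCM

open Pool.Agent.Helper36.PT Pool.Agent.Helper81.VCP

variable {n : ℕ}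

/-- One round of the main loop: the list of minimal transversals is completed (`f = true`), or a new
one is found, or the budget is increased (only if it is small). -/
def RoundSpec (step : State → State) (E : List (Finset (Fin n))) (v : ℕ) : Prop :=
  ∀ (L : List (Finset (Fin n))) (P : ℕ), L.Nodup → (∀ B ∈ L, MinTr E B) →
    ∃ (L' : List (Finset (Fin n))) (P' : ℕ) (f : Bool),
      step ((n, E.map vec), (L.map vec, (P, false))) = ((n, E.map vec), (L'.map vec, (P', f))) ∧
      L'.Nodup ∧ (∀ B ∈ L', MinTr E B) ∧ (f = true → ∀ T, MinTr E T → T ∈ L') ∧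
      ((f = true ∧ P' = P) ∨ (f = false ∧ P' = P ∧ L'.length = L.length + 1) ∨
        (f = false ∧ L' = L ∧ P' = (P + 2) * (P + 2) ∧
          P < (n * (E.length + (TrF E).card) + n + 2) ^ (v + 2)))

theorem length_le_TrF (E L : List (Finset (Fin n))) (hnd : L.Nodup)
    (hL : ∀ B ∈ L, MinTr E B) : L.length ≤ (TrF E).card := by
  rw [← List.toFinset_card_of_nodup hnd]
  apply Finset.card_le_card
  intro B hB
  classical
  unfold TrF
  rw [Finset.mem_filter]
  exact ⟨Finset.mem_univ B, hL B (List.mem_toFinset.1 hB)⟩

/-- One round with trace covers. -/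
theorem round_stepT (E : List (Finset (Fin n))) (v : ℕ)
    (hv : E.toFinset.vcDim ≤ v ∨ (TrF E).vcDim ≤ v ∨
      ((∀ A ∈ E, A.card < 2 ^ (v + 1)) ∧ ∀ B, MinTr E B → B.card < 2 ^ (v + 1))) :
    RoundSpec stepT E v := by
  intro L P hnd hL
  rcases hY : (List.range P).find? (feasY P n (E.map vec) (L.map vec)) with _ | q
  · have hstep : stepT ((n, E.map vec), (L.map vec, (P, false))) =
        stepS ((n, E.map vec), (L.map vec, (P, false))) := by
      unfold stepT
      simp only [hY]
    rw [hstep]
    rcases hv with hv | hv | hv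
    · exact step_spec E L P v hnd hL (Or.inl hv)
    · exact step_spec E L P v hnd hL (Or.inr hv)
    · obtain ⟨L', P', f, h1, h2, h3, h4, h5⟩ :=
        step_spec E L P E.toFinset.vcDim hnd hL (Or.inl le_rfl)
      refine ⟨L', P', f, h1, h2, h3, h4, ?_⟩
      rcases h5 with h5 | h5 | h5
      · exact Or.inl h5
      · exact Or.inr (Or.inl h5)
      · refine Or.inr (Or.inr ⟨h5.1, h5.2.1, h5.2.2.1, ?_⟩)
        by_contra hcon
        have hP : (n * (E.length + (TrF E).card) + n + 2) ^ (v + 2) ≤ P := not_lt.1 hcon
        have hLc := length_le_TrF E L hnd hL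
        have hvP : v + 2 < P := by
          have h1 : v + 2 < 2 ^ (v + 2) := Nat.lt_two_pow_self
          have h2 : 2 ^ (v + 2) ≤ (n * (E.length + (TrF E).card) + n + 2) ^ (v + 2) :=
            Nat.pow_le_pow_left (by omega) _
          omega
        have key : ∀ c : ℕ, c ≤ n * (E.length + (TrF E).card) + n + 2 → c ^ (v + 2) ≤ P := by
          intro c hc
          exact (Nat.pow_le_pow_left hc (v + 2)).trans hP
        have hf := feasY_of_card P v E L hv.1 (fun A hA => hv.2 A (hL A hA)) (by
            apply key
            have h3 : n * L.length ≤ n * (E.length + (TrF E).card) :=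
              Nat.mul_le_mul_left n (by omega)
            omega) (by
            apply key
            have h3 : n * E.length ≤ n * (E.length + (TrF E).card) :=
              Nat.mul_le_mul_left n (by omega)
            omega)
        rw [List.find?_eq_none] at hY
        exact hY (v + 2) (List.mem_range.2 hvP) hf
  · have hfeas := List.find?_some hY
    rcases hN : nextY (prs P n (L.map vec) q) (prs P n (E.map vec) q) n (E.map vec) (L.map vec)
      with _ | w
    · refine ⟨L, P, true, ?_, hnd, hL, fun _ => ?_, Or.inl ⟨rfl, rfl⟩⟩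
      · unfold stepT
        simp only [hY, hN]
      · exact nextY_none P q E L hL hfeas hN
    · obtain ⟨T, hT1, hT2, hT3⟩ := nextY_some _ _ _ _ _ hN
      refine ⟨L ++ [T], P, false, ?_, ?_, ?_, fun h => absurd h (by simp),
        Or.inr (Or.inl ⟨rfl, rfl, by simp⟩)⟩
      · unfold stepT
        simp only [hY, hN, hT1, List.map_append, List.map_cons, List.map_nil]
      · rw [List.nodup_append]
        refine ⟨hnd, List.nodup_singleton T, ?_⟩
        intro B hB C hC hBC
        rw [List.mem_singleton] at hC
        exact hT3 B hB (by rw [hBC, hC])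
      · intro B hB
        rw [List.mem_append, List.mem_singleton] at hB
        rcases hB with h | h
        · exact hL B h
        · rw [h]; exact hT2

theorem run_loop (E : List (Finset (Fin n))) (v : ℕ)
    (step : State → State) (hv : RoundSpec step E v) (A Q : ℕ) (hA : A = (TrF E).card)
    (hQ : Q = (n * (E.length + (TrF E).card) + n + 2) ^ (v + 2)) :
    ∀ (m : ℕ) (L : List (Finset (Fin n))) (P : ℕ), L.Nodup → (∀ B ∈ L, MinTr E B) →
      P ≤ (Q + 1) ^ 2 → (A - L.length) + (Q - min P Q) ≤ m →
      ∃ (k : ℕ) (L' : List (Finset (Fin n))) (P' : ℕ), L'.Nodup ∧ (∀ T, T ∈ L' ↔ MinTr E T) ∧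
        step^[k] (((n, E.map vec), (L.map vec, (P, false))) : State) =
          ((n, E.map vec), (L'.map vec, (P', true))) ∧
        (∀ j < k, doneS (step^[j] (((n, E.map vec), (L.map vec, (P, false))) : State)) = false) ∧
        k ≤ m + 1 ∧
        ∀ j ≤ k, esz (step^[j] (((n, E.map vec), (L.map vec, (P, false))) : State)) ≤
          4 * n + 2 * (E.length + A) * (6 * n + 1) + 2 * (Q + 1) ^ 2 + 6 := by
  have hsz : ∀ (L : List (Finset (Fin n))) (P : ℕ) (f : Bool), L.Nodup →
      (∀ B ∈ L, MinTr E B) → P ≤ (Q + 1) ^ 2 →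
      esz (((n, E.map vec), (L.map vec, (P, f))) : State) ≤
        4 * n + 2 * (E.length + A) * (6 * n + 1) + 2 * (Q + 1) ^ 2 + 6 := by
    intro L P f hnd hL hP
    rw [esz_state]
    have h1 : L.length ≤ A := by
      rw [hA]
      exact length_le_TrF E L hnd hL
    have h2 : 2 * (E.length + L.length) * (6 * n + 1) ≤ 2 * (E.length + A) * (6 * n + 1) :=
      Nat.mul_le_mul_right _ (by omega)
    omega
  intro m
  induction m with
  | zero =>
    intro L P hnd hL hP hm
    obtain ⟨L', P', f, hst, hnd', hL', hall, hc⟩ := hv L P hnd hL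
    rcases hc with ⟨hf, hP'⟩ | ⟨hf, hP', hlen⟩ | ⟨hf, hLL, hP', hlt⟩
    · subst hf
      subst hP'
      refine ⟨1, L', P', hnd', fun T => ⟨fun hT => hL' T hT, fun hT => hall rfl T hT⟩, hst, ?_,
        le_rfl, ?_⟩
      · intro j hj
        have : j = 0 := by omega
        subst this
        rfl
      · intro j hj
        interval_cases j
        · exact hsz L P' false hnd hL hP
        · rw [Function.iterate_one, hst]
          exact hsz L' P' true hnd' hL' hP
    · exfalso
      have h1 := length_le_TrF E L' hnd' hL'
      rw [← hA] at h1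
      omega
    · exfalso
      rw [← hQ] at hlt
      rw [Nat.min_eq_left hlt.le] at hm
      omega
  | succ m ih =>
    intro L P hnd hL hP hm
    obtain ⟨L', P', f, hst, hnd', hL', hall, hc⟩ := hv L P hnd hL
    have hcase : f = true ∧ P' = P ∨ (f = false ∧ P' ≤ (Q + 1) ^ 2 ∧
        (A - L'.length) + (Q - min P' Q) ≤ m) := by
      rcases hc with ⟨hf, hP'⟩ | ⟨hf, hP', hlen⟩ | ⟨hf, hLL, hP', hlt⟩
      · exact Or.inl ⟨hf, hP'⟩
      · refine Or.inr ⟨hf, by rw [hP']; exact hP, ?_⟩
        have h1 := length_le_TrF E L' hnd' hL'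
        rw [← hA] at h1
        rw [hP']
        omega
      · rw [← hQ] at hlt
        rw [Nat.min_eq_left hlt.le] at hm
        refine Or.inr ⟨hf, ?_, ?_⟩
        · rw [hP', pow_two]
          exact Nat.mul_le_mul (by omega) (by omega)
        · have h2 : P + 1 ≤ P' := by
            rw [hP']
            nlinarith
          rw [hLL]
          have h3 : P + 1 ≤ min P' Q := le_min h2 hlt
          omega
    rcases hcase with ⟨hf, hP'⟩ | ⟨hf, hPb, hmb⟩
    · subst hf
      subst hP'
      refine ⟨1, L', P', hnd', fun T => ⟨fun hT => hL' T hT, fun hT => hall rfl T hT⟩, hst, ?_,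
        by omega, ?_⟩
      · intro j hj
        have : j = 0 := by omega
        subst this
        rfl
      · intro j hj
        interval_cases j
        · exact hsz L P' false hnd hL hP
        · rw [Function.iterate_one, hst]
          exact hsz L' P' true hnd' hL' hP
    · subst hf
      obtain ⟨k, L'', P'', g1, g2, g3, g4, g5, g6⟩ := ih L' P' hnd' hL' hPb hmb
      refine ⟨k + 1, L'', P'', g1, g2, ?_, ?_, by omega, ?_⟩
      · rw [Function.iterate_succ_apply, hst]
        exact g3
      · intro j hj
        rcases j with _ | j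
        · rfl
        · rw [Function.iterate_succ_apply, hst]
          exact g4 j (by omega)
      · intro j hj
        rcases j with _ | j
        · exact hsz L P false hnd hL hP
        · rw [Function.iterate_succ_apply, hst]
          exact g6 j (by omega)

theorem run_spec (E : List (Finset (Fin n))) (v : ℕ)
    (step : State → State) (hv : RoundSpec step E v) :
    ∃ (k : ℕ) (L : List (Finset (Fin n))) (P : ℕ), L.Nodup ∧ (∀ T, T ∈ L ↔ MinTr E T) ∧
      step^[k] (((n, E.map vec), ([], (0, false))) : State) =
        ((n, E.map vec), (L.map vec, (P, true))) ∧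
      (∀ j < k, doneS (step^[j] (((n, E.map vec), ([], (0, false))) : State)) = false) ∧
      k ≤ L.length + (n * (E.length + L.length) + n + 2) ^ (v + 2) + 1 ∧
      ∀ j ≤ k, esz (step^[j] (((n, E.map vec), ([], (0, false))) : State)) ≤
        4 * n + 2 * (E.length + L.length) * (6 * n + 1) +
          2 * ((n * (E.length + L.length) + n + 2) ^ (v + 2) + 1) ^ 2 + 6 := by
  obtain ⟨k, L, P, g1, g2, g3, g4, g5, g6⟩ := run_loop E v step hv (TrF E).card _ rfl rfl
    ((TrF E).card + (n * (E.length + (TrF E).card) + n + 2) ^ (v + 2)) [] 0 List.nodup_nil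
    (fun B hB => absurd hB (List.not_mem_nil)) (Nat.zero_le _) (by
      simp)
  have hlen : L.length = (TrF E).card := by
    classical
    rw [← List.toFinset_card_of_nodup g1]
    congr 1
    ext T
    rw [List.mem_toFinset, g2 T]
    unfold TrF
    rw [Finset.mem_filter]
    exact ⟨fun h => ⟨Finset.mem_univ T, h⟩, fun h => h.2⟩
  refine ⟨k, L, P, g1, g2, g3, g4, ?_, ?_⟩
  · rw [hlen]
    exact g5
  · rw [hlen]
    exact g6

end Pool.Agent.Helper33.TCM
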