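import Mathlib
import Pool.Agent.Helper68.PT.Ext2
import Pool.Agent.Helper81.VCP.Defs
import Pool.Agent.Helper81.VCP.PT3
import Pool.Agent.Helper81.VCP.Parse
import Pool.Agent.Helper81.VCP.W4
import Pool.Agent.Helper81.VCP.Main
import Pool.Agent.Helper33.TCM.Defs
import Pool.Agent.Helper33.TCM.PT
import Pool.Agent.Helper33.TCM.Round

/-!
# A general machine: any further complete search can be added

`feas P n E L q` says that with the budget `P` the search with parameter `q` is complete and nothing is
truncated; `nxt P n E L q` is the result of the search (a new minimal transversal or `none`).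
-/

set_option autoImplicit false

namespace Pool.Agent.Helper33.TCM

open Pool.Agent.Helper36.PT Pool.Agent.Helper81.VCP

/-- One round: the search `nxt` if it is feasible for some `q < P`, else a round of `base`. -/
def stepX (feas : ℕ → ℕ → List (List Bool) → List (List Bool) → ℕ → Bool)
    (nxt : ℕ → ℕ → List (List Bool) → List (List Bool) → ℕ → Option (List Bool))
    (base : State → State) (s : State) : State :=
  match (List.range s.2.2.1).find? (feas s.2.2.1 s.1.1 s.1.2 s.2.1) with
  | some q =>
    match nxt s.2.2.1 s.1.1 s.1.2 s.2.1 q with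
    | some v => (s.1, (s.2.1 ++ [v], (s.2.2.1, false)))
    | none => (s.1, (s.2.1, (s.2.2.1, true)))
  | none => base s

theorem stepX_pt {feas : ℕ → ℕ → List (List Bool) → List (List Bool) → ℕ → Bool}
    {nxt : ℕ → ℕ → List (List Bool) → List (List Bool) → ℕ → Option (List Bool)}
    {base : State → State}
    (hfeas : PolyTime (fun p : State × ℕ => feas p.1.2.2.1 p.1.1.1 p.1.1.2 p.1.2.1 p.2))
    (hnxt : PolyTime (fun p : State × ℕ => nxt p.1.2.2.1 p.1.1.1 p.1.1.2 p.1.2.1 p.2))
    (hbase : PolyTime base) : PolyTime (stepX feas nxt base) := by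
  have hM : PolyTime (fun p : State × ℕ =>
      (match nxt p.1.2.2.1 p.1.1.1 p.1.1.2 p.1.2.1 p.2 with
        | none => (p.1.1, (p.1.2.1, (p.1.2.2.1, true)))
        | some v => (p.1.1, (p.1.2.1 ++ [v], (p.1.2.2.1, false))) : State)) := by
    have h := PolyTime.optCases (o := fun p : State × ℕ =>
        nxt p.1.2.2.1 p.1.1.1 p.1.1.2 p.1.2.1 p.2)
      (f := fun p : State × ℕ => ((p.1.1, (p.1.2.1, (p.1.2.2.1, true))) : State))
      (g := fun (p : State × ℕ) v => ((p.1.1, (p.1.2.1 ++ [v], (p.1.2.2.1, false))) : State))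
      hnxt (by fun_prop) (by fun_prop)
    refine h.congr fun p => ?_
    generalize nxt p.1.2.2.1 p.1.1.1 p.1.1.2 p.1.2.1 p.2 = o
    cases o with
    | none => rfl
    | some v => rfl
  have h := PolyTime.optCases (o := fun s : State =>
      (List.range s.2.2.1).find? (feas s.2.2.1 s.1.1 s.1.2 s.2.1))
    (f := base)
    (g := fun (s : State) (q : ℕ) =>
      (match nxt s.2.2.1 s.1.1 s.1.2 s.2.1 q with
        | none => (s.1, (s.2.1, (s.2.2.1, true)))
        | some v => (s.1, (s.2.1 ++ [v], (s.2.2.1, false))) : State))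
    (PolyTime.find (l := fun s : State => List.range s.2.2.1)
      (c := fun (s : State) (q : ℕ) => feas s.2.2.1 s.1.1 s.1.2 s.2.1 q) (by fun_prop) hfeas)
    hbase hM
  refine h.congr fun s => ?_
  unfold stepX
  generalize (List.range s.2.2.1).find? (feas s.2.2.1 s.1.1 s.1.2 s.2.1) = o
  cases o with
  | none => rfl
  | some q =>
    simp only
    generalize nxt s.2.2.1 s.1.1 s.1.2 s.2.1 q = o''
    cases o'' with
    | none => rfl
    | some v => rfl

variable {n : ℕ}

theorem round_stepX (feas : ℕ → ℕ → List (List Bool) → List (List Bool) → ℕ → Bool)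
    (nxt : ℕ → ℕ → List (List Bool) → List (List Bool) → ℕ → Option (List Bool))
    (base : State → State) (E : List (Finset (Fin n))) (v : ℕ)
    (hsome : ∀ (P : ℕ) (L : List (Finset (Fin n))) (q : ℕ) (w : List Bool),
      nxt P n (E.map vec) (L.map vec) q = some w →
      ∃ T : Finset (Fin n), w = vec T ∧ MinTr E T ∧ ∀ B ∈ L, ¬ B ⊆ T)
    (hnone : ∀ (P : ℕ) (L : List (Finset (Fin n))) (q : ℕ), (∀ B ∈ L, MinTr E B) →
      feas P n (E.map vec) (L.map vec) q = true →
      nxt P n (E.map vec) (L.map vec) q = none → ∀ T : Finset (Fin n), MinTr E T → T ∈ L)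
    (hbase : ∃ v', RoundSpec base E v')
    (hv : RoundSpec base E v ∨ ∀ (P : ℕ) (L : List (Finset (Fin n))), L.Nodup →
      (∀ B ∈ L, MinTr E B) → (n * (E.length + (TrF E).card) + n + 2) ^ (v + 2) ≤ P →
      ∃ q < P, feas P n (E.map vec) (L.map vec) q = true) :
    RoundSpec (stepX feas nxt base) E v := by
  intro L P hnd hL
  rcases hY : (List.range P).find? (feas P n (E.map vec) (L.map vec)) with _ | q
  · have hstep : stepX feas nxt base ((n, E.map vec), (L.map vec, (P, false))) =
        base ((n, E.map vec), (L.map vec, (P, false))) := by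
      unfold stepX
      simp only [hY]
    rw [hstep]
    rcases hv with hv | hv
    · exact hv L P hnd hL
    · obtain ⟨v', hv'⟩ := hbase
      obtain ⟨L', P', f, h1, h2, h3, h4, h5⟩ := hv' L P hnd hL
      refine ⟨L', P', f, h1, h2, h3, h4, ?_⟩
      rcases h5 with h5 | h5 | h5
      · exact Or.inl h5
      · exact Or.inr (Or.inl h5)
      · refine Or.inr (Or.inr ⟨h5.1, h5.2.1, h5.2.2.1, ?_⟩)
        by_contra hcon
        obtain ⟨q, hq, hf⟩ := hv P L hnd hL (not_lt.1 hcon)
        rw [List.find?_eq_none] at hY
        exact hY q (List.mem_range.2 hq) hf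
  · have hfeas := List.find?_some hY
    rcases hN : nxt P n (E.map vec) (L.map vec) q with _ | w
    · refine ⟨L, P, true, ?_, hnd, hL, fun _ => ?_, Or.inl ⟨rfl, rfl⟩⟩
      · unfold stepX
        simp only [hY, hN]
      · exact hnone P L q hL hfeas hN
    · obtain ⟨T, hT1, hT2, hT3⟩ := hsome P L q w hN
      refine ⟨L ++ [T], P, false, ?_, ?_, ?_, fun h => absurd h (by simp),
        Or.inr (Or.inl ⟨rfl, rfl, by simp⟩)⟩
      · unfold stepX
        simp only [hY, hN, hT1, List.map_append, List.map_cons, List.map_nil]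
      · rw [List.nodup_append]
        refine ⟨hnd, List.nodup_singleton T, ?_⟩
        intro B hB C hC hBC
        rw [List.mem_singleton] at hC
        exact hT3 B hB (by rw [hBC, hC])
      · intro B hB
        rw [List.mem_append, List.mem_singleton] at hB
        rcases hB with h | h
        · exact hL B h
        · rw [h]; exact hT2

/-- The machine of a step function. -/
theorem machine_of_step (step : State → State) (hpt : PolyTime step) :
    ∃ tm : Turing.FinTM2, ∃ eIn : tm.Γ tm.k₀ ≃ Option Bool,
    ∃ eOut : tm.Γ tm.k₁ ≃ Option Bool, ∃ c : ℕ,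
      ∀ n : ℕ, ∀ E : List (Finset (Fin n)), ∀ v : ℕ, RoundSpec step E v →
        ∃ L : List (Finset (Fin n)),
        L.Nodup ∧ L.toFinset = TrF E ∧ (∀ T : Finset (Fin n),
          T ∈ L ↔ Minimal (fun S : Finset (Fin n) => ∀ e ∈ E, (S ∩ e).Nonempty) T) ∧
        Nonempty (Turing.EvalsToInTime tm.step
          (Turing.initList tm (List.map (fun b : Option Bool => eIn.symm b) (inputW E)))
          (some (Turing.haltList tm (List.map (fun b : Option Bool => eOut.symm b) (rows L))))
          (((inputW E).length + (rows L).length + 2) ^ (c * (1 + v)))) := by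
  obtain ⟨tm, eIn, eOut, c, hm⟩ :=
    loop_machine initS step doneS outS initS_pt hpt doneS_pt outS_pt
  refine ⟨tm, eIn, eOut, 16 * c, fun n E v hR => ?_⟩
  obtain ⟨k, L, P, hnd, hL, hend, hnot, hk, hsz⟩ := run_spec E v step hR
  have hLT : L.toFinset = TrF E := by
    ext T
    rw [List.mem_toFinset, hL T]
    unfold TrF
    simp
  refine ⟨L, hnd, hLT, hL, ?_⟩
  have hinit : initS ⟨(inputW E).flatMap cod⟩ = ((n, E.map vec), ([], (0, false))) := by
    rw [initS, parse_spec]
  obtain ⟨tr⟩ := hm (inputW E) (rows L) k _ (by rw [hinit]; exact hnot)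
    (by rw [hinit, hend]; rfl) (by rw [hinit, hend]; exact out_spec _ _ _)
    (by rw [hinit]; exact hsz)
  have hbound : ((inputW E).length + (rows L).length + k +
      (4 * n + 2 * (E.length + L.length) * (6 * n + 1) +
          2 * ((n * (E.length + L.length) + n + 2) ^ (v + 2) + 1) ^ 2 + 6) + 2) ^ c ≤
      ((inputW E).length + (rows L).length + 2) ^ (16 * c * (1 + v)) := by
    have hlen : (inputW E).length + (rows L).length = (n + 1) * (E.length + L.length + 1) := by
      rw [length_inputW, length_rows]; ring
    have hexp : (n + 1) * (E.length + L.length + 1) =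
        n * (E.length + L.length) + n + (E.length + L.length) + 1 := by ring
    apply bound_arith _ ((n * (E.length + L.length) + n + 2) ^ (v + 2)) c v _ _ _
    · rw [hlen, hexp]; omega
    · apply Nat.pow_le_pow_left
      rw [hlen, hexp]; omega
    · omega
    · rw [hlen, hexp]
      omega
    · rw [hlen, hexp]
      have : 2 * (E.length + L.length) * (6 * n + 1) =
          12 * (n * (E.length + L.length)) + 2 * (E.length + L.length) := by ring
      omega
  exact ⟨{ tr with steps_le_m := tr.steps_le_m.trans hbound }⟩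

end Pool.Agent.Helper33.TCM
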