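import Mathlib
import Pool.Agent.Helper68.PT.Ext2
import Pool.Agent.Helper81.VCP.Defs
import Pool.Agent.Helper81.VCP.PT3
import Pool.Agent.Helper81.VCP.Parse
import Pool.Agent.Helper81.VCP.W4
import Pool.Agent.Helper81.VCP.Main
import Pool.Agent.Helper33.TCM.PT
import Pool.Agent.Helper33.TCM.Round

/-!
# Assembly (after `VCP.Main` of helper81)
-/

set_option autoImplicit false

namespace Pool.Agent.Helper33.TCM

open Pool.Agent.Helper36.PT Pool.Agent.Helper81.VCP

theorem main : ∃ tm : Turing.FinTM2, ∃ eIn : tm.Γ tm.k₀ ≃ Option Bool,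
    ∃ eOut : tm.Γ tm.k₁ ≃ Option Bool, ∃ c : ℕ,
      ∀ n : ℕ, ∀ E : List (Finset (Fin n)), ∃ L : List (Finset (Fin n)),
        L.Nodup ∧ (∀ T : Finset (Fin n),
          T ∈ L ↔ Minimal (fun S : Finset (Fin n) => ∀ e ∈ E, (S ∩ e).Nonempty) T) ∧
        Nonempty (Turing.EvalsToInTime tm.step
          (Turing.initList tm (List.map (fun b : Option Bool => eIn.symm b) (inputW E)))
          (some (Turing.haltList tm (List.map (fun b : Option Bool => eOut.symm b) (rows L))))
          (((inputW E).length + (rows L).length + 2) ^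
            (c * (1 + min (min E.toFinset.vcDim L.toFinset.vcDim)
              (Nat.log 2 ((E ++ L).toFinset.sup Finset.card)))))) := by
  obtain ⟨tm, eIn, eOut, c, hm⟩ :=
    loop_machine initS stepT doneS outS initS_pt stepT_pt doneS_pt outS_pt
  refine ⟨tm, eIn, eOut, 16 * c, fun n E => ?_⟩
  obtain ⟨k, L, P, hnd, hL, hend, hnot, hk, hsz⟩ :=
    run_spec E (min (min E.toFinset.vcDim (TrF E).vcDim)
      (Nat.log 2 ((E.toFinset ∪ TrF E).sup Finset.card))) stepT
      (round_stepT E _ (by
        rcases min_choice (min E.toFinset.vcDim (TrF E).vcDim)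
          (Nat.log 2 ((E.toFinset ∪ TrF E).sup Finset.card)) with h | h
        · rw [h]
          rcases min_choice E.toFinset.vcDim (TrF E).vcDim with h | h
          · exact Or.inl (le_of_eq h.symm)
          · exact Or.inr (Or.inl (le_of_eq h.symm))
        · rw [h]
          have hs : ∀ A ∈ E.toFinset ∪ TrF E, A.card < 2 ^
              (Nat.log 2 ((E.toFinset ∪ TrF E).sup Finset.card) + 1) := fun A hA =>
            lt_of_le_of_lt (Finset.le_sup (f := Finset.card) hA) (Nat.lt_pow_succ_log_self (by norm_num) _)
          refine Or.inr (Or.inr ⟨fun A hA => hs A (Finset.mem_union_left _ (List.mem_toFinset.2 hA)),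
            fun B hB => hs B (Finset.mem_union_right _ ?_)⟩)
          unfold TrF
          simpa using hB))
  have hLT : L.toFinset = TrF E := by
    ext T
    rw [List.mem_toFinset, hL T]
    unfold TrF
    simp
  refine ⟨L, hnd, hL, ?_⟩
  rw [List.toFinset_append, hLT]
  generalize min (min E.toFinset.vcDim (TrF E).vcDim)
    (Nat.log 2 ((E.toFinset ∪ TrF E).sup Finset.card)) = v at hk hsz ⊢
  have hinit : initS ⟨(inputW E).flatMap cod⟩ = ((n, E.map vec), ([], (0, false))) := by
    rw [initS, parse_spec]
  obtain ⟨tr⟩ := hm (inputW E) (rows L) k _ (by rw [hinit]; exact hnot)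
    (by rw [hinit, hend]; rfl) (by rw [hinit, hend]; exact out_spec _ _ _)
    (by rw [hinit]; exact hsz)
  have hbound : ((inputW E).length + (rows L).length + k +
      (4 * n + 2 * (E.length + L.length) * (6 * n + 1) +
          2 * ((n * (E.length + L.length) + n + 2) ^ (v + 2) + 1) ^ 2 + 6) + 2) ^ c ≤
      ((inputW E).length + (rows L).length + 2) ^ (16 * c * (1 + v)) := by
    have hlen : (inputW E).length + (rows L).length = (n + 1) * (E.length + L.length + 1) := by
      rw [length_inputW, length_rows]; ring
    have hexp : (n + 1) * (E.length + L.length + 1) =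
        n * (E.length + L.length) + n + (E.length + L.length) + 1 := by ring
    apply bound_arith _ ((n * (E.length + L.length) + n + 2) ^ (v + 2)) c v _ _ _
    · rw [hlen, hexp]; omega
    · apply Nat.pow_le_pow_left
      rw [hlen, hexp]; omega
    · omega
    · rw [hlen, hexp]
      omega
    · rw [hlen, hexp]
      have : 2 * (E.length + L.length) * (6 * n + 1) =
          12 * (n * (E.length + L.length)) + 2 * (E.length + L.length) := by ring
      omega
  exact ⟨{ tr with steps_le_m := tr.steps_le_m.trans hbound }⟩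

end Pool.Agent.Helper33.TCM
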