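import Mathlib
import Pool.Agent.Helper33.TCM.Gen
import Pool.Agent.Helper33.TCM.Main
import Pool.Agent.Helper64.SQ.VPT
import Pool.Agent.Helper64.SQ.Search
import Pool.Agent.Helper16.LS.Main

/-!
# The final machine

Searches in this order: LS (edges of size `O(log N)`), SQ (all hypergraphs, `N ^ O(sqrt (log N))`),
trace covers, local closures (VC-dimension).
-/

set_option autoImplicit false

namespace Pool.Agent.Helper33.TCM

open Pool.Agent.Helper36.PT Pool.Agent.Helper81.VCP Pool.Agent.Helper64.SQ Pool.Agent.Helper16.LS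

variable {n : ℕ}

/-- The step of the final machine. -/
noncomputable def stepF : State → State := stepX feasM nextM (stepX feasS nextS stepT)

theorem stepF_pt : PolyTime stepF :=
  stepX_pt' (stepX_pt feasS_pt nextS_pt stepT_pt)

/-- The parameter of an instance. -/
noncomputable def kap (E : List (Finset (Fin n))) (N : ℕ) : ℕ :=
  min (min E.toFinset.vcDim (TrF E).vcDim)
    (min (Nat.log 2 ((E.toFinset ∪ TrF E).sup Finset.card / Nat.log 2 N))
      (Nat.sqrt (Nat.log 2 N)))

theorem mem_TrF' (E : List (Finset (Fin n))) (B : Finset (Fin n)) : B ∈ TrF E ↔ MinTr E B := by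
  classical
  unfold TrF
  simp

theorem roundT_ex (E : List (Finset (Fin n))) : ∃ v', RoundSpec stepT E v' :=
  ⟨E.toFinset.vcDim, round_stepT E _ (Or.inl le_rfl)⟩

theorem round_SQ (E : List (Finset (Fin n))) (v : ℕ)
    (hv : RoundSpec stepT E v ∨
      8 * Nat.sqrt (Nat.log 2 (n * (E.length + (TrF E).card) + n + 2)) + 8 ≤ v + 2) :
    RoundSpec (stepX feasS nextS stepT) E v := by
  apply round_stepX feasS nextS stepT E v
  · intro P L q w h
    exact nextS_some P E L q w h
  · intro P L q hL hf h
    exact nextS_none P E L q hL hf h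
  · exact roundT_ex E
  · rcases hv with hv | hv
    · exact Or.inl hv
    · refine Or.inr fun P L hnd hL hP => ?_
      have hLc := length_le_TrF E L hnd hL
      refine feasS_of_card P (n * (E.length + (TrF E).card) + n + 2) E L ?_ ?_
      · have : n * (E.length + L.length) ≤ n * (E.length + (TrF E).card) :=
          Nat.mul_le_mul_left _ (by omega)
        omega
      · exact (Nat.pow_le_pow_right (by omega) hv).trans hP

theorem round_stepF (E : List (Finset (Fin n))) :
    RoundSpec stepF E (17 + 8 * kap E (n * (E.length + (TrF E).card) + n + 2)) := by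
  have hS : ∃ v', RoundSpec (stepX feasS nextS stepT) E v' := by
    obtain ⟨v', hv'⟩ := roundT_ex E
    exact ⟨v', round_SQ E v' (Or.inl hv')⟩
  set b := n * (E.length + (TrF E).card) + n + 2 with hb
  unfold stepF
  apply round_M _ E _ hS
  unfold kap
  rcases min_choice (min E.toFinset.vcDim (TrF E).vcDim)
    (min (Nat.log 2 ((E.toFinset ∪ TrF E).sup Finset.card / Nat.log 2 b))
      (Nat.sqrt (Nat.log 2 b))) with h | h
  · left
    apply round_SQ
    left
    apply round_stepT
    rw [h]
    rcases min_choice E.toFinset.vcDim (TrF E).vcDim with h | h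
    · left
      rw [h]
      omega
    · right
      left
      rw [h]
      omega
  · rw [h]
    rcases min_choice (Nat.log 2 ((E.toFinset ∪ TrF E).sup Finset.card / Nat.log 2 b))
      (Nat.sqrt (Nat.log 2 b)) with h | h
    · right
      rw [h]
      refine ⟨(E.toFinset ∪ TrF E).sup Finset.card, fun A hA => ?_, fun B hB => ?_, ?_⟩
      · exact Finset.le_sup (f := Finset.card) (Finset.mem_union_left _ (List.mem_toFinset.2 hA))
      · exact Finset.le_sup (f := Finset.card)
          (Finset.mem_union_right _ ((mem_TrF' E B).2 hB))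
      · rw [← hb]
        omega
    · left
      apply round_SQ
      right
      rw [h, ← hb]
      omega

theorem log_half (y : ℕ) : Nat.log 2 y ≤ Nat.log 2 (y / 2) + 1 := by
  rcases Nat.lt_or_ge y 2 with h | h
  · rw [Nat.log_of_lt h]
    omega
  · rw [Nat.log_div_base]
    have : 1 ≤ Nat.log 2 y := by
      rw [Nat.one_le_iff_ne_zero]
      intro h0
      rw [Nat.log_eq_zero_iff] at h0
      omega
    omega

theorem kap_le (E : List (Finset (Fin n))) (L : ℕ) :
    kap E (n * (E.length + L) + n + 2) ≤ kap E ((n + 1) * (E.length + 1) + (n + 1) * L + 2) + 1 := by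
  unfold kap
  set b := n * (E.length + L) + n + 2 with hb
  set N := (n + 1) * (E.length + 1) + (n + 1) * L + 2 with hN
  have hNb : N = n * (E.length + L) + n + (E.length + L) + 3 := by
    rw [hN]; ring
  have hbN : b ≤ N := by omega
  have hsq : Nat.sqrt (Nat.log 2 b) ≤ Nat.sqrt (Nat.log 2 N) :=
    Nat.sqrt_le_sqrt (Nat.log_mono_right hbN)
  have hlog : Nat.log 2 ((E.toFinset ∪ TrF E).sup Finset.card / Nat.log 2 b) ≤
      Nat.log 2 ((E.toFinset ∪ TrF E).sup Finset.card / Nat.log 2 N) + 1 := by
    rcases Nat.eq_zero_or_pos n with hn | hn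
    · have : (E.toFinset ∪ TrF E).sup Finset.card = 0 := by
        refine Nat.le_zero.1 (Finset.sup_le fun A _ => ?_)
        have := Finset.card_le_univ A
        rw [Fintype.card_fin] at this
        omega
      rw [this]
      simp
    · have h1 : N ≤ 2 * b := by
        have : E.length + L ≤ n * (E.length + L) := Nat.le_mul_of_pos_left _ hn
        omega
      have h2 : Nat.log 2 N ≤ Nat.log 2 b + 1 := by
        calc Nat.log 2 N ≤ Nat.log 2 (b * 2) := Nat.log_mono_right (by omega)
          _ = Nat.log 2 b + 1 := Nat.log_mul_base (by norm_num) (by omega)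
      have h3 : 1 ≤ Nat.log 2 b := by
        rw [Nat.one_le_iff_ne_zero]
        intro h0
        rw [Nat.log_eq_zero_iff] at h0
        omega
      refine (log_half _).trans ?_
      rw [Nat.div_div_eq_div_mul]
      have h4 : (E.toFinset ∪ TrF E).sup Finset.card / (Nat.log 2 b * 2) ≤
          (E.toFinset ∪ TrF E).sup Finset.card / Nat.log 2 N := by
        apply Nat.div_le_div_left _ _
        · omega
        · have : 1 ≤ Nat.log 2 N := h3.trans (Nat.log_mono_right hbN)
          omega
      have := Nat.log_mono_right (b := 2) h4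
      omega
  omega

theorem final : ∃ tm : Turing.FinTM2, ∃ eIn : tm.Γ tm.k₀ ≃ Option Bool,
    ∃ eOut : tm.Γ tm.k₁ ≃ Option Bool, ∃ c : ℕ,
      ∀ n : ℕ, ∀ E : List (Finset (Fin n)), ∃ L : List (Finset (Fin n)),
        L.Nodup ∧ (∀ T : Finset (Fin n),
          T ∈ L ↔ Minimal (fun S : Finset (Fin n) => ∀ e ∈ E, (S ∩ e).Nonempty) T) ∧
        Nonempty (Turing.EvalsToInTime tm.step
          (Turing.initList tm (List.map (fun b : Option Bool => eIn.symm b) (inputW E)))
          (some (Turing.haltList tm (List.map (fun b : Option Bool => eOut.symm b) (rows L))))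
          (((inputW E).length + (rows L).length + 2) ^
            (c * (1 + min (min E.toFinset.vcDim L.toFinset.vcDim)
              (min (Nat.log 2 ((E ++ L).toFinset.sup Finset.card /
                  Nat.log 2 ((inputW E).length + (rows L).length + 2)))
                (Nat.sqrt (Nat.log 2 ((inputW E).length + (rows L).length + 2)))))))) := by
  obtain ⟨tm, eIn, eOut, c, hm⟩ := machine_of_step stepF stepF_pt
  refine ⟨tm, eIn, eOut, 26 * c, fun n E => ?_⟩
  obtain ⟨L, hnd, hLT, hL, ⟨tr⟩⟩ := hm n E _ (round_stepF E)
  refine ⟨L, hnd, hL, ⟨{ tr with steps_le_m := tr.steps_le_m.trans ?_ }⟩⟩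
  have hcard : L.length = (TrF E).card := by
    rw [← hLT, List.toFinset_card_of_nodup hnd]
  have h1 := kap_le E L.length
  rw [hcard] at h1
  have h2 : (inputW E).length + (rows L).length + 2 =
      (n + 1) * (E.length + 1) + (n + 1) * (TrF E).card + 2 := by
    rw [length_inputW, length_rows, hcard]
  rw [List.toFinset_append, hLT, h2]
  apply Nat.pow_le_pow_right (by omega)
  change c * (1 + (17 + 8 * kap E (n * (E.length + (TrF E).card) + n + 2))) ≤
    26 * c * (1 + kap E ((n + 1) * (E.length + 1) + (n + 1) * (TrF E).card + 2))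
  calc c * (1 + (17 + 8 * kap E (n * (E.length + (TrF E).card) + n + 2))) ≤
      c * (26 * (1 + kap E ((n + 1) * (E.length + 1) + (n + 1) * (TrF E).card + 2))) :=
        Nat.mul_le_mul_left _ (by omega)
    _ = _ := by ring

end Pool.Agent.Helper33.TCM
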