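import Mathlib
import Pool.Agent.Helper33.TCM.Gen
import Pool.Agent.Helper33.TCM.Main
import Pool.Agent.Helper33.TCM.Final
import Pool.Agent.Helper66.SQ2.VPT
import Pool.Agent.Helper66.SQ2.Search
import Pool.Agent.Helper50.SQ2.Arith

/-!
# The final machine, second version

Searches in this order: LS (edges of size `O(log N)`), SQ2 (all hypergraphs,
`N ^ O(sqrt (log N / log log N))`), trace covers, local closures (VC-dimension).
-/

set_option autoImplicit false

namespace Pool.Agent.Helper33.TCM

open Pool.Agent.Helper36.PT Pool.Agent.Helper81.VCP Pool.Agent.Helper64.SQ Pool.Agent.Helper16.LS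
  Pool.Agent.Helper66.SQ2 Pool.Agent.Helper50.SQ2

variable {n : ℕ}

/-- The step of the final machine. -/
noncomputable def stepG : State → State := stepX feasM nextM (stepX feasS2 nextS2 stepT)

theorem stepG_pt : PolyTime stepG :=
  stepX_pt' (stepX_pt feasS2_pt nextS2_pt stepT_pt)

/-- `sqrt (log N / log log N)`. -/
noncomputable def rt (N : ℕ) : ℕ :=
  Nat.sqrt (Nat.log 2 N / (Nat.log 2 (Nat.log 2 N) + 1))

theorem yy_eq (N : ℕ) : yy (Nat.log 2 N) = rt N + 1 := rfl

/-- The parameter of an instance. -/
noncomputable def kapG (E : List (Finset (Fin n))) (N : ℕ) : ℕ :=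
  min (min E.toFinset.vcDim (TrF E).vcDim)
    (min (Nat.log 2 ((E.toFinset ∪ TrF E).sup Finset.card / Nat.log 2 N)) (rt N))

theorem round_SQ2 (E : List (Finset (Fin n))) (v : ℕ)
    (hv : RoundSpec stepT E v ∨
      1710 * yy (Nat.log 2 (n * (E.length + (TrF E).card) + n + 2)) ≤ v + 2) :
    RoundSpec (stepX feasS2 nextS2 stepT) E v := by
  apply round_stepX feasS2 nextS2 stepT E v
  · intro P L q w h
    exact nextS2_some P E L q w h
  · intro P L q hL hf h
    exact nextS2_none P E L q hL hf h
  · exact roundT_ex E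
  · rcases hv with hv | hv
    · exact Or.inl hv
    · refine Or.inr fun P L hnd hL hP => ?_
      have hLc := length_le_TrF E L hnd hL
      refine feasS2_of_card P (n * (E.length + (TrF E).card) + n + 2) E L ?_ ?_
      · have : n * (E.length + L.length) ≤ n * (E.length + (TrF E).card) :=
          Nat.mul_le_mul_left _ (by omega)
        omega
      · exact (Nat.pow_le_pow_right (by omega) hv).trans hP

theorem round_stepG (E : List (Finset (Fin n))) :
    RoundSpec stepG E
      (1727 + 1710 * kapG E (n * (E.length + (TrF E).card) + n + 2)) := by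
  have hS : ∃ v', RoundSpec (stepX feasS2 nextS2 stepT) E v' := by
    obtain ⟨v', hv'⟩ := roundT_ex E
    exact ⟨v', round_SQ2 E v' (Or.inl hv')⟩
  set b := n * (E.length + (TrF E).card) + n + 2 with hb
  unfold stepG
  apply round_M _ E _ hS
  unfold kapG
  rcases min_choice (min E.toFinset.vcDim (TrF E).vcDim)
    (min (Nat.log 2 ((E.toFinset ∪ TrF E).sup Finset.card / Nat.log 2 b)) (rt b)) with h | h
  · left
    apply round_SQ2
    left
    apply round_stepT
    rw [h]
    rcases min_choice E.toFinset.vcDim (TrF E).vcDim with h | h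
    · left
      rw [h]
      omega
    · right
      left
      rw [h]
      omega
  · rw [h]
    rcases min_choice (Nat.log 2 ((E.toFinset ∪ TrF E).sup Finset.card / Nat.log 2 b))
      (rt b) with h | h
    · right
      rw [h]
      refine ⟨(E.toFinset ∪ TrF E).sup Finset.card, fun A hA => ?_, fun B hB => ?_, ?_⟩
      · exact Finset.le_sup (f := Finset.card) (Finset.mem_union_left _ (List.mem_toFinset.2 hA))
      · exact Finset.le_sup (f := Finset.card)
          (Finset.mem_union_right _ ((mem_TrF' E B).2 hB))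
      · rw [← hb]
        omega
    · left
      apply round_SQ2
      right
      rw [h, ← hb, yy_eq]
      omega

/-- If `log N ≤ log b + 1` and `b ≤ N`, the roots are comparable. -/
theorem rt_le (b N : ℕ) (h1 : Nat.log 2 b ≤ Nat.log 2 N) (h2 : Nat.log 2 N ≤ Nat.log 2 b + 1) :
    rt b ≤ 2 * rt N + 2 := by
  unfold rt
  set l := Nat.log 2 b with hl
  set l' := Nat.log 2 N with hl'
  set q := l / (Nat.log 2 l + 1) with hq
  set q' := l' / (Nat.log 2 l' + 1) with hq'
  have h3 : Nat.log 2 l' ≤ Nat.log 2 l + 1 := by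
    rcases Nat.eq_zero_or_pos l with h0 | h0
    · have h5 : l' ≤ 1 := by omega
      have h6 : Nat.log 2 l' ≤ Nat.log 2 1 := Nat.log_mono_right h5
      rw [Nat.log_one_right] at h6
      omega
    · calc Nat.log 2 l' ≤ Nat.log 2 (l * 2) := Nat.log_mono_right (by omega)
        _ = Nat.log 2 l + 1 := Nat.log_mul_base (by norm_num) (by omega)
  have h4 : q / 2 ≤ q' := by
    rw [hq', Nat.le_div_iff_mul_le (Nat.succ_pos _)]
    calc q / 2 * (Nat.log 2 l' + 1) ≤ q / 2 * (2 * (Nat.log 2 l + 1)) :=
          Nat.mul_le_mul_left _ (by omega)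
      _ = (q / 2 * 2) * (Nat.log 2 l + 1) := by ring
      _ ≤ q * (Nat.log 2 l + 1) := Nat.mul_le_mul_right _ (Nat.div_mul_le_self q 2)
      _ ≤ l := Nat.div_mul_le_self _ _
      _ ≤ l' := h1
  have h5 : q < (2 * Nat.sqrt q' + 2 + 1) * (2 * Nat.sqrt q' + 2 + 1) := by
    have h6 : q' < (Nat.sqrt q' + 1) * (Nat.sqrt q' + 1) := Nat.lt_succ_sqrt _
    have h7 : q ≤ 2 * q' + 1 := by omega
    generalize Nat.sqrt q' = s at h6
    nlinarith
  exact Nat.le_of_lt_succ (Nat.sqrt_lt.2 h5)

theorem kapG_le (E : List (Finset (Fin n))) (L : ℕ) :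
    kapG E (n * (E.length + L) + n + 2) ≤
      2 * kapG E ((n + 1) * (E.length + 1) + (n + 1) * L + 2) + 2 := by
  unfold kapG
  set b := n * (E.length + L) + n + 2 with hb
  set N := (n + 1) * (E.length + 1) + (n + 1) * L + 2 with hN
  have hNb : N = n * (E.length + L) + n + (E.length + L) + 3 := by
    rw [hN]; ring
  have hbN : b ≤ N := by omega
  have hlogb : Nat.log 2 b ≤ Nat.log 2 N := Nat.log_mono_right hbN
  have hboth : Nat.log 2 ((E.toFinset ∪ TrF E).sup Finset.card / Nat.log 2 b) ≤
      Nat.log 2 ((E.toFinset ∪ TrF E).sup Finset.card / Nat.log 2 N) + 1 ∧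
      rt b ≤ 2 * rt N + 2 := by
    rcases Nat.eq_zero_or_pos n with hn | hn
    · constructor
      · have : (E.toFinset ∪ TrF E).sup Finset.card = 0 := by
          refine Nat.le_zero.1 (Finset.sup_le fun A _ => ?_)
          have := Finset.card_le_univ A
          rw [Fintype.card_fin] at this
          omega
        rw [this]
        simp
      · have hb2 : b = 2 := by
          have h0 : n * (E.length + L) = 0 := Nat.mul_eq_zero.2 (Or.inl hn)
          rw [hb, h0, hn]
        have hl1 : Nat.log 2 b = 1 := by
          rw [hb2]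
          exact Nat.log_eq_one_iff.2 ⟨by norm_num, by norm_num, by norm_num⟩
        have h1 : rt b = 1 := by
          unfold rt
          rw [hl1]
          simp
        omega
    · have h1 : N ≤ 2 * b := by
        have : E.length + L ≤ n * (E.length + L) := Nat.le_mul_of_pos_left _ hn
        omega
      have h2 : Nat.log 2 N ≤ Nat.log 2 b + 1 := by
        calc Nat.log 2 N ≤ Nat.log 2 (b * 2) := Nat.log_mono_right (by omega)
          _ = Nat.log 2 b + 1 := Nat.log_mul_base (by norm_num) (by omega)
      have h3 : 1 ≤ Nat.log 2 b := by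
        rw [Nat.one_le_iff_ne_zero]
        intro h0
        rw [Nat.log_eq_zero_iff] at h0
        omega
      refine ⟨(log_half _).trans ?_, rt_le b N hlogb h2⟩
      rw [Nat.div_div_eq_div_mul]
      have h4 : (E.toFinset ∪ TrF E).sup Finset.card / (Nat.log 2 b * 2) ≤
          (E.toFinset ∪ TrF E).sup Finset.card / Nat.log 2 N := by
        apply Nat.div_le_div_left _ _
        · omega
        · omega
      have := Nat.log_mono_right (b := 2) h4
      omega
  omega

theorem finalG : ∃ tm : Turing.FinTM2, ∃ eIn : tm.Γ tm.k₀ ≃ Option Bool,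
    ∃ eOut : tm.Γ tm.k₁ ≃ Option Bool, ∃ c : ℕ,
      ∀ n : ℕ, ∀ E : List (Finset (Fin n)), ∃ L : List (Finset (Fin n)),
        L.Nodup ∧ (∀ T : Finset (Fin n),
          T ∈ L ↔ Minimal (fun S : Finset (Fin n) => ∀ e ∈ E, (S ∩ e).Nonempty) T) ∧
        Nonempty (Turing.EvalsToInTime tm.step
          (Turing.initList tm (List.map (fun b : Option Bool => eIn.symm b) (inputW E)))
          (some (Turing.haltList tm (List.map (fun b : Option Bool => eOut.symm b) (rows L))))
          (((inputW E).length + (rows L).length + 2) ^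
            (c * (1 + min (min E.toFinset.vcDim L.toFinset.vcDim)
              (min (Nat.log 2 ((E ++ L).toFinset.sup Finset.card /
                  Nat.log 2 ((inputW E).length + (rows L).length + 2)))
                (rt ((inputW E).length + (rows L).length + 2))))))) := by
  obtain ⟨tm, eIn, eOut, c, hm⟩ := machine_of_step stepG stepG_pt
  refine ⟨tm, eIn, eOut, 5148 * c, fun n E => ?_⟩
  obtain ⟨L, hnd, hLT, hL, ⟨tr⟩⟩ := hm n E _ (round_stepG E)
  refine ⟨L, hnd, hL, ⟨{ tr with steps_le_m := tr.steps_le_m.trans ?_ }⟩⟩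
  have hcard : L.length = (TrF E).card := by
    rw [← hLT, List.toFinset_card_of_nodup hnd]
  have h1 := kapG_le E L.length
  rw [hcard] at h1
  have h2 : (inputW E).length + (rows L).length + 2 =
      (n + 1) * (E.length + 1) + (n + 1) * (TrF E).card + 2 := by
    rw [length_inputW, length_rows, hcard]
  rw [List.toFinset_append, hLT, h2]
  apply Nat.pow_le_pow_right (by omega)
  change c * (1 + (1727 + 1710 * kapG E (n * (E.length + (TrF E).card) + n + 2))) ≤
    5148 * c * (1 + kapG E ((n + 1) * (E.length + 1) + (n + 1) * (TrF E).card + 2))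
  calc c * (1 + (1727 + 1710 * kapG E (n * (E.length + (TrF E).card) + n + 2))) ≤
      c * (5148 * (1 + kapG E ((n + 1) * (E.length + 1) + (n + 1) * (TrF E).card + 2))) :=
        Nat.mul_le_mul_left _ (by omega)
    _ = _ := by ring

end Pool.Agent.Helper33.TCM
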